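import Pool.Agent.PFE.StmtsE1

/-!
# Squad PFE, row SGR: rules for `σ`
-/

open scoped BigOperators

noncomputable section

namespace Pool.Agent.PFE.H63

open Pool.Agent.PFC.B1 (FS Split)

section basic

variable {K S X Ω : Type} [Field K] [Ring S] [Algebra K S] [Group X] [Fintype X] [Fintype Ω]

theorem sg_c (G : GS K S X) (χ : X →* K) (x : X) (s : S) : G.sg χ (G.c x s) = χ x • G.c x s := by
  show (∑ z, χ z • G.c z) (G.c x s) = χ x • G.c x s
  rw [LinearMap.sum_apply, Finset.sum_eq_single x]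
  · rw [LinearMap.smul_apply, G.ci]
  · intro z _ hz
    rw [LinearMap.smul_apply, G.co z x s hz, smul_zero]
  · intro h
    exact absurd (Finset.mem_univ x) h

theorem sg_apply (G : GS K S X) (χ : X →* K) (s : S) : G.sg χ s = ∑ x, χ x • G.c x s := by
  show (∑ z, χ z • G.c z) s = _
  rw [LinearMap.sum_apply]
  rfl

theorem sg_mul (G : GS K S X) (χ : X →* K) (a b : S) :
    G.sg χ (a * b) = G.sg χ a * G.sg χ b := by
  have h1 : G.sg χ (a * b) = ∑ x, ∑ x', G.sg χ (G.c x a * G.c x' b) := by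
    conv_lhs => rw [← G.cs a, ← G.cs b, Finset.sum_mul_sum]
    rw [map_sum]
    exact Finset.sum_congr rfl fun x _ => map_sum _ _ _
  have h2 : G.sg χ a * G.sg χ b = ∑ x, ∑ x', (χ x • G.c x a) * (χ x' • G.c x' b) := by
    rw [sg_apply, sg_apply, Finset.sum_mul_sum]
  rw [h1, h2]
  refine Finset.sum_congr rfl fun x _ => Finset.sum_congr rfl fun x' _ => ?_
  rw [← G.cm x x' a b, sg_c, map_mul, smul_mul_smul_comm, G.cm x x' a b]

theorem sg_one (G : GS K S X) (χ : X →* K) : G.sg χ 1 = 1 := by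
  have h := sg_c G χ 1 1
  have h2 : χ 1 = 1 := map_one χ
  rw [G.c1, h2, one_smul] at h
  exact h

theorem sgp_c (G : GS K S X) (χ : X →* K) (k : ℕ) (x : X) (s : S) :
    (G.sg χ ^ k) (G.c x s) = χ x ^ k • G.c x s := by
  induction k with
  | zero =>
    rw [pow_zero, pow_zero, one_smul]
    rfl
  | succ k ih =>
    rw [pow_succ', Module.End.mul_apply, ih, map_smul, sg_c, smul_smul, pow_succ]

theorem sgp_apply (G : GS K S X) (χ : X →* K) (k : ℕ) (s : S) :
    (G.sg χ ^ k) s = ∑ x, χ x ^ k • G.c x s := by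
  conv_lhs => rw [← G.cs s, map_sum]
  exact Finset.sum_congr rfl fun x _ => sgp_c G χ k x s

theorem sgp_mul (G : GS K S X) (χ : X →* K) (k : ℕ) (a b : S) :
    (G.sg χ ^ k) (a * b) = (G.sg χ ^ k) a * (G.sg χ ^ k) b := by
  induction k with
  | zero => rfl
  | succ k ih =>
    rw [pow_succ', Module.End.mul_apply, ih, sg_mul]
    rfl

theorem lam_sg (G : GS K S X) (F : SF K S X Ω G) (χ : X →* K) (a : S) :
    F.f.lam (G.sg χ a) = F.f.lam a := by
  have h1 : ∀ b : S, F.f.lam b = F.f.lam (G.c 1 b) := by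
    intro b
    conv_lhs => rw [← G.cs b, map_sum]
    rw [Finset.sum_eq_single 1]
    · intro x _ hx
      exact F.t1 x b hx
    · intro h
      exact absurd (Finset.mem_univ 1) h
  rw [sg_apply, map_sum, Finset.sum_eq_single 1]
  · rw [map_smul, map_one, one_smul, ← h1]
  · intro x _ hx
    rw [map_smul, F.t1 x a hx, smul_zero]
  · intro h
    exact absurd (Finset.mem_univ 1) h

theorem lam_sgp (G : GS K S X) (F : SF K S X Ω G) (χ : X →* K) (k : ℕ) (a : S) :
    F.f.lam ((G.sg χ ^ k) a) = F.f.lam a := by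
  induction k with
  | zero => rfl
  | succ k ih =>
    rw [pow_succ', Module.End.mul_apply, lam_sg, ih]

theorem sgp_surj (G : GS K S X) (χ : X →* K) (k : ℕ) (s : S) : ∃ s', (G.sg χ ^ k) s' = s := by
  refine ⟨∑ x, χ x⁻¹ ^ k • G.c x s, ?_⟩
  rw [map_sum]
  conv_rhs => rw [← G.cs s]
  refine Finset.sum_congr rfl fun x _ => ?_
  rw [map_smul, sgp_c, smul_smul, ← mul_pow, ← map_mul, inv_mul_cancel, map_one, one_pow, one_smul]

end basic

/-- SGR -/
theorem sgr : SgrStmt := by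
  intro K S X Ω _ _ _ _ _ _ G F l χ hχ
  refine ⟨sg_mul G χ, sg_one G χ, ?_, lam_sg G F χ, sg_c G χ, ?_, ?_⟩
  · intro a
    rw [sgp_apply]
    conv_rhs => rw [← G.cs a]
    refine Finset.sum_congr rfl fun x _ => ?_
    rw [hχ, one_smul]
  · intro k s
    obtain ⟨s', rfl⟩ := sgp_surj G χ k s
    have h1 : ∀ o, F.f.lam ((G.sg χ ^ k) (F.f.b' o) * (G.sg χ ^ k) s') • (G.sg χ ^ k) (F.f.b o) =
        (G.sg χ ^ k) (F.f.lam (F.f.b' o * s') • F.f.b o) := by
      intro o
      rw [← sgp_mul, lam_sgp, map_smul]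
    rw [Finset.sum_congr rfl fun o _ => h1 o, ← map_sum]
    congr 1
    exact F.f.h1 s'
  · intro k s
    obtain ⟨s', rfl⟩ := sgp_surj G χ k s
    have h1 : ∀ o, F.f.lam ((G.sg χ ^ k) s' * (G.sg χ ^ k) (F.f.b o)) • (G.sg χ ^ k) (F.f.b' o) =
        (G.sg χ ^ k) (F.f.lam (s' * F.f.b o) • F.f.b' o) := by
      intro o
      rw [← sgp_mul, lam_sgp, map_smul]
    rw [Finset.sum_congr rfl fun o _ => h1 o, ← map_sum]
    congr 1
    exact F.f.h2 s'

end Pool.Agent.PFE.H63
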